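import Pool.Agent.Helper23.XT.Ultra

/-!
Project XT (helper23, MP_c5a4e2_lc), section XT-Ultra: the valuation of the ultrapower and the
maximal ideal of the overring generated by the constants.
-/

set_option autoImplicit false

namespace Pool.Agent.Helper1.XT

open Filter MvPolynomial
open Pool.Agent.Helper23.XT

variable {K Γ : Type*} [Field K] [LinearOrderedCommGroupWithZero Γ]
variable {ι : Type*} {U : Ultrafilter ι} {v : Valuation K Γ}

private theorem coe_eq_zero {b : ι → K} :
    ((b : (U : Filter ι).Germ K) = 0) ↔ ∀ᶠ i in (U : Filter ι), b i = 0 := by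
  rw [← Germ.coe_zero, Germ.coe_eq]
  rfl

private theorem coe_ne_zero {b : ι → K} :
    ((b : (U : Filter ι).Germ K) ≠ 0) ↔ ∀ᶠ i in (U : Filter ι), b i ≠ 0 := by
  rw [Ne, coe_eq_zero, ← Ultrafilter.eventually_not]

theorem val_le_iff {a b : ι → K} :
    (OU U v).valuation (a : (U : Filter ι).Germ K) ≤ (OU U v).valuation (b : (U : Filter ι).Germ K)
      ↔ ∀ᶠ i in (U : Filter ι), v (a i) ≤ v (b i) := by
  by_cases hb : ((b : (U : Filter ι).Germ K) = 0)
  · rw [hb, map_zero, le_zero_iff, map_eq_zero, coe_eq_zero]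
    rw [coe_eq_zero] at hb
    constructor
    · intro h
      filter_upwards [h] with i h1
      rw [h1, map_zero]
      exact zero_le
    · intro h
      filter_upwards [h, hb] with i h1 h2
      rw [h2, map_zero, le_zero_iff, map_eq_zero] at h1
      exact h1
  · have hb' := coe_ne_zero.1 hb
    have hvb : 0 < (OU U v).valuation (b : (U : Filter ι).Germ K) :=
      zero_lt_iff.2 ((Valuation.ne_zero_iff _).2 hb)
    rw [← div_le_one₀ hvb, ← map_div₀, ValuationSubring.valuation_le_one_iff, ← Germ.coe_div,
      coe_mem_OU]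
    constructor
    · intro h
      filter_upwards [h, hb'] with i h1 h2
      rw [Pi.div_apply, map_div₀, div_le_one₀ (zero_lt_iff.2 ((Valuation.ne_zero_iff _).2 h2))] at h1
      exact h1
    · intro h
      filter_upwards [h, hb'] with i h1 h2
      rw [Pi.div_apply, map_div₀, div_le_one₀ (zero_lt_iff.2 ((Valuation.ne_zero_iff _).2 h2))]
      exact h1

theorem val_lt_iff {a b : ι → K} :
    (OU U v).valuation (a : (U : Filter ι).Germ K) < (OU U v).valuation (b : (U : Filter ι).Germ K)
      ↔ ∀ᶠ i in (U : Filter ι), v (a i) < v (b i) := by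
  rw [← not_le, val_le_iff, ← Ultrafilter.eventually_not]
  simp only [not_le]

/-- the maximal ideal of `BU` : germs that are eventually smaller than every constant -/
theorem mem_maximalIdeal_BU {a : ι → K} (ha : (a : (U : Filter ι).Germ K) ∈ BU U v) :
    (⟨(a : (U : Filter ι).Germ K), ha⟩ : BU U v) ∈ IsLocalRing.maximalIdeal (BU U v) ↔
      ∀ κ : K, κ ≠ 0 → ∀ᶠ i in (U : Filter ι), v (a i) < v κ := by
  rw [ValuationSubring.valuation_lt_one_iff]
  show (BU U v).valuation (a : (U : Filter ι).Germ K) < 1 ↔ _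
  constructor
  · intro h κ hκ
    by_contra hcon
    rw [← Ultrafilter.eventually_not] at hcon
    simp only [not_lt] at hcon
    have hκ0 : 0 < v κ := zero_lt_iff.2 ((Valuation.ne_zero_iff _).2 hκ)
    have hane : ∀ᶠ i in (U : Filter ι), a i ≠ 0 := by
      filter_upwards [hcon] with i h1 h2
      rw [h2, map_zero] at h1
      exact absurd h1 (not_le.2 hκ0)
    have hx : (a : (U : Filter ι).Germ K) ≠ 0 := coe_ne_zero.2 hane
    have hinv : (((a⁻¹ : ι → K)) : (U : Filter ι).Germ K) ∈ BU U v := by
      refine coe_mem_BU.2 ⟨κ⁻¹, inv_ne_zero hκ, ?_⟩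
      filter_upwards [hcon] with i h1
      rw [Pi.inv_apply, map_inv₀, map_inv₀]
      exact inv_anti₀ hκ0 h1
    rw [Germ.coe_inv, ← ValuationSubring.valuation_le_one_iff, map_inv₀] at hinv
    have hpos : 0 < (BU U v).valuation (a : (U : Filter ι).Germ K) :=
      zero_lt_iff.2 ((Valuation.ne_zero_iff _).2 hx)
    exact absurd ((inv_le_one₀ hpos).1 hinv) (not_le.2 h)
  · intro h
    by_contra hcon
    rw [not_lt] at hcon
    have hx : (a : (U : Filter ι).Germ K) ≠ 0 := by
      intro h0
      rw [h0, map_zero] at hcon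
      exact absurd hcon (not_le.2 zero_lt_one)
    have hane := coe_ne_zero.1 hx
    have hinv : (((a⁻¹ : ι → K)) : (U : Filter ι).Germ K) ∈ BU U v := by
      rw [Germ.coe_inv, ← ValuationSubring.valuation_le_one_iff, map_inv₀]
      exact inv_le_one_of_one_le₀ hcon
    obtain ⟨κ, hκ, h1⟩ := coe_mem_BU.1 hinv
    have h2 := h κ⁻¹ (inv_ne_zero hκ)
    have hκ0 : 0 < v κ := zero_lt_iff.2 ((Valuation.ne_zero_iff _).2 hκ)
    have hF : ∀ᶠ i in (U : Filter ι), False := by
      filter_upwards [h1, h2, hane] with i h3 h4 h5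
      rw [Pi.inv_apply, map_inv₀] at h3
      rw [map_inv₀] at h4
      have h6 : 0 < v (a i) := zero_lt_iff.2 ((Valuation.ne_zero_iff _).2 h5)
      have h7 : (v κ)⁻¹ ≤ v (a i) := by
        have := inv_anti₀ (inv_pos.2 h6) h3
        rwa [inv_inv] at this
      exact absurd h4 (not_lt.2 h7)
    exact (Filter.eventually_const (f := (U : Filter ι)) (p := False)).1 hF

/-- evaluation of polynomials over `K` in the ultrapower is coordinatewise -/
theorem aeval_BU {n : ℕ} (f : MvPolynomial (Fin n) K) (x : Fin n → BU U v) (a : Fin n → ι → K)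
    (hx : ∀ j, ((x j : BU U v) : (U : Filter ι).Germ K) = (a j : (U : Filter ι).Germ K)) :
    ((aeval x f : BU U v) : (U : Filter ι).Germ K) =
      ((fun i => eval (fun j => a j i) f : ι → K) : (U : Filter ι).Germ K) := by
  induction f using MvPolynomial.induction_on with
  | C κ =>
    rw [aeval_C, algebraMap_BU]
    simp only [eval_C]
  | add p q hp hq =>
    have e : (fun i => eval (fun j => a j i) (p + q)) =
        (fun i => eval (fun j => a j i) p) + (fun i => eval (fun j => a j i) q) := by
      funext i; simp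
    rw [map_add, e, Germ.coe_add, ← hp, ← hq]
    rfl
  | mul_X p j hp =>
    have e : (fun i => eval (fun j => a j i) (p * X j)) =
        (fun i => eval (fun j => a j i) p) * a j := by
      funext i; simp
    rw [map_mul, aeval_X, e, Germ.coe_mul, ← hp, ← hx j]
    rfl

end Pool.Agent.Helper1.XT
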